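import Mathlib

/-!
# The group ring of a field of characteristic zero over its additive group

`R K = K[K]`: finite formal sums `∑ c T^β`.  Units are monomials; a power `G ^ k` dividing a sum with
at most `k` terms is a unit (derivations); an `n`-th power which divides an `n`-th power;
`f v^k = g u^k`.
-/

set_option autoImplicit false
set_option linter.unusedSectionVars false
set_option linter.style.haveILetI false

namespace Pool.Agent.D0H23.EP

open AddMonoidAlgebra

variable {K : Type*} [Field K] [CharZero K]

/-- number of terms -/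
noncomputable def nt (F : AddMonoidAlgebra K K) : ℕ := F.coeff.support.card

/-- the group ring is a domain -/
instance instDomR : IsDomain (AddMonoidAlgebra K K) := by
  letI : Module ℚ K := inferInstance
  infer_instance

theorem nt_eq_zero {F : AddMonoidAlgebra K K} (h : nt F = 0) : F = 0 := by
  rw [nt, Finset.card_eq_zero, Finsupp.support_eq_empty] at h
  exact coeff_eq_zero.1 h

theorem nt_pos {F : AddMonoidAlgebra K K} (h : F ≠ 0) : 1 ≤ nt F := by
  rcases Nat.eq_zero_or_pos (nt F) with h1 | h1
  · exact absurd (nt_eq_zero h1) h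
  · exact h1

theorem mono_unit (β : K) {c : K} (hc : c ≠ 0) : IsUnit (single β c : AddMonoidAlgebra K K) := by
  refine IsUnit.of_mul_eq_one (single (-β) c⁻¹) ?_
  rw [single_mul_single, add_neg_cancel, mul_inv_cancel₀ hc]
  rfl

theorem nt_one {F : AddMonoidAlgebra K K} (h : nt F = 1) :
    ∃ β c : K, c ≠ 0 ∧ F = single β c := by
  obtain ⟨β, c, hc, h2⟩ := Finsupp.card_support_eq_one'.1 h
  exact ⟨β, c, hc, coeff_injective h2⟩

/-- a divisor of a monomial is a monomial -/
theorem mono_of_mul_mono {F G : AddMonoidAlgebra K K} {β c : K} (hc : c ≠ 0)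
    (h : F * G = single β c) : ∃ β' c' : K, c' ≠ 0 ∧ F = single β' c' := by
  classical
  letI : Module ℚ K := inferInstance
  haveI : TwoUniqueSums K := inferInstance
  have hF : F ≠ 0 := by
    rintro rfl
    rw [zero_mul] at h
    exact hc (single_eq_zero.1 h.symm)
  have hG : G ≠ 0 := by
    rintro rfl
    rw [mul_zero] at h
    exact hc (single_eq_zero.1 h.symm)
  apply nt_one
  by_contra hne
  have h1 := nt_pos hF
  have h2 := nt_pos hG
  have h3 : 1 < F.coeff.support.card * G.coeff.support.card := by
    have : 2 ≤ nt F := by omega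
    calc 1 < 2 * 1 := by norm_num
      _ ≤ _ := Nat.mul_le_mul this h2
  obtain ⟨p, hp, q, hq, hpq, hu1, hu2⟩ := TwoUniqueSums.uniqueAdd_of_one_lt_card h3
  rw [Finset.mem_product] at hp hq
  have e1 := coeff_mul_add_of_uniqueAdd hu1
  have e2 := coeff_mul_add_of_uniqueAdd hu2
  have n1 : F.coeff p.1 * G.coeff p.2 ≠ 0 :=
    mul_ne_zero (Finsupp.mem_support_iff.1 hp.1) (Finsupp.mem_support_iff.1 hp.2)
  have n2 : F.coeff q.1 * G.coeff q.2 ≠ 0 :=
    mul_ne_zero (Finsupp.mem_support_iff.1 hq.1) (Finsupp.mem_support_iff.1 hq.2)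
  rw [← e1, h, coeff_single, Finsupp.single_apply] at n1
  rw [← e2, h, coeff_single, Finsupp.single_apply] at n2
  have s1 : β = p.1 + p.2 := by
    by_contra h5; rw [if_neg h5] at n1; exact n1 rfl
  have s2 : β = q.1 + q.2 := by
    by_contra h5; rw [if_neg h5] at n2; exact n2 rfl
  have := hu1 hq.1 hq.2 (by rw [← s1, ← s2])
  exact hpq (Prod.ext this.1.symm this.2.symm)

theorem mono_of_unit {F : AddMonoidAlgebra K K} (h : IsUnit F) :
    ∃ β c : K, c ≠ 0 ∧ F = single β c := by
  obtain ⟨G, hG⟩ := h.exists_right_inv
  exact mono_of_mul_mono (β := 0) (c := 1) one_ne_zero (by rw [hG]; rfl)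

/-- the derivation `c T^β ↦ β c T^β` -/
noncomputable def der : AddMonoidAlgebra K K →+ AddMonoidAlgebra K K where
  toFun F := ofCoeff (Finsupp.onFinset F.coeff.support (fun β => β * F.coeff β) (by
    intro a ha
    rw [Finsupp.mem_support_iff]
    exact right_ne_zero_of_mul ha))
  map_zero' := by ext; simp
  map_add' F G := by ext; simp [mul_add]

theorem der_coeff (F : AddMonoidAlgebra K K) (β : K) :
    (der F).coeff β = β * F.coeff β := rfl

theorem der_single (β c : K) : der (single β c) = single β (β * c) := by
  classical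
  ext γ
  rw [der_coeff, coeff_single, coeff_single, Finsupp.single_apply, Finsupp.single_apply]
  split_ifs with h
  · rw [h]
  · rw [mul_zero]

theorem der_mul (F G : AddMonoidAlgebra K K) : der (F * G) = der F * G + F * der G := by
  induction F using AddMonoidAlgebra.induction_linear with
  | zero => simp
  | add F1 F2 h1 h2 => rw [add_mul, map_add, h1, h2, map_add]; ring
  | single β c =>
    induction G using AddMonoidAlgebra.induction_linear with
    | zero => simp
    | add G1 G2 h1 h2 => rw [mul_add, map_add, h1, h2, map_add]; ring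
    | single γ d =>
      rw [single_mul_single, der_single, der_single, der_single, single_mul_single,
        single_mul_single, ← single_add]
      congr 1
      ring

theorem der_pow (G : AddMonoidAlgebra K K) (k : ℕ) :
    der (G ^ (k + 1)) = (k + 1 : ℕ) • (G ^ k * der G) := by
  induction k with
  | zero => simp
  | succ k ih =>
    rw [pow_succ, der_mul, ih]
    simp only [nsmul_eq_mul]
    push_cast
    ring

/-- `(β - γ)` times the coefficient -/
noncomputable def sft (γ : K) (F : AddMonoidAlgebra K K) : AddMonoidAlgebra K K :=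
  der F - γ • F

theorem sft_coeff (γ : K) (F : AddMonoidAlgebra K K) (β : K) :
    (sft γ F).coeff β = (β - γ) * F.coeff β := by
  rw [sft, sub_mul, ← der_coeff]
  simp

theorem sft_dvd (γ : K) {F G : AddMonoidAlgebra K K} {k : ℕ} (h : G ^ (k + 1) ∣ F) :
    G ^ k ∣ sft γ F := by
  obtain ⟨H, rfl⟩ := h
  rw [sft, der_mul, der_pow, nsmul_eq_mul]
  refine ⟨((k + 1 : ℕ) : AddMonoidAlgebra K K) * der G * H + G * der H - γ • (G * H), ?_⟩
  rw [pow_succ, mul_sub, mul_add, mul_smul_comm]
  ring_nf

theorem nt_sft {γ : K} {F : AddMonoidAlgebra K K} (h : γ ∈ F.coeff.support) :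
    nt (sft γ F) + 1 = nt F := by
  classical
  have h1 : (sft γ F).coeff.support = F.coeff.support.erase γ := by
    ext β
    rw [Finsupp.mem_support_iff, sft_coeff, Finset.mem_erase, Finsupp.mem_support_iff]
    constructor
    · intro h2
      refine ⟨?_, right_ne_zero_of_mul h2⟩
      rintro rfl
      exact left_ne_zero_of_mul h2 (sub_self _)
    · rintro ⟨h2, h3⟩
      exact mul_ne_zero (sub_ne_zero.2 h2) h3
  rw [nt, nt, h1]
  exact Finset.card_erase_add_one h

/-- a `k`-th power dividing a sum with at most `k` terms is the power of a unit -/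
theorem unit_of_pow_dvd (k : ℕ) {F G : AddMonoidAlgebra K K} (hF : F ≠ 0) (hk : nt F ≤ k)
    (h : G ^ k ∣ F) : IsUnit G := by
  induction k generalizing F with
  | zero => exact absurd (nt_eq_zero (Nat.le_zero.1 hk)) hF
  | succ k ih =>
    by_cases h1 : nt F = 1
    · obtain ⟨β, c, hc, rfl⟩ := nt_one h1
      have h2 : G ∣ single β c := dvd_trans (dvd_pow_self G (Nat.succ_ne_zero k)) h
      exact isUnit_of_dvd_unit h2 (mono_unit β hc)
    · have h2 := nt_pos hF
      have h3 : F.coeff.support.Nonempty := by
        rw [← Finset.card_pos]; exact h2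
      obtain ⟨γ, hγ⟩ := h3
      have h4 := nt_sft hγ
      refine ih (F := sft γ F) ?_ (by omega) (sft_dvd γ h)
      intro h5
      rw [h5] at h4
      have : nt (0 : AddMonoidAlgebra K K) = 0 := by simp [nt]
      omega

end Pool.Agent.D0H23.EP
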