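import Mathlib
import Pool.Agent.D0H23.EP.Grp

/-!
# The group ring locally is a ring of Laurent polynomials
-/

set_option autoImplicit false
set_option linter.unusedSectionVars false
set_option linter.style.haveILetI false

namespace Pool.Agent.D0H23.EP

open AddMonoidAlgebra

variable {K : Type*} [Field K] [CharZero K]

/-- a finitely generated group of exponents has a basis -/
theorem exists_basis (T : Finset K) : ∃ (r : ℕ) (b : Fin r → K), LinearIndependent ℤ b ∧
    ∀ β ∈ T, β ∈ Submodule.span ℤ (Set.range b) := by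
  set M : Submodule ℤ K := Submodule.span ℤ (T : Set K) with hM
  haveI : Module.Finite ℤ M := Module.Finite.span_finset ℤ T
  haveI : Module.IsTorsionFree ℤ M := inferInstance
  haveI : Module.Free ℤ M := Module.free_of_finite_type_torsion_free'
  let B := Module.finBasis ℤ M
  refine ⟨_, fun i => (B i : K), ?_, ?_⟩
  · exact B.linearIndependent.map' M.subtype (Submodule.ker_subtype M)
  · have h1 : Submodule.span ℤ (Set.range fun i => (B i : K)) = M := by
      have h2 : (Set.range fun i => (B i : K)) = M.subtype '' (Set.range B) := by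
        rw [← Set.range_comp]; rfl
      rw [h2, Submodule.span_image, B.span_eq, Submodule.map_top, Submodule.range_subtype]
    intro β hβ
    rw [h1, hM]
    exact Submodule.subset_span (by exact_mod_cast hβ)

/-- the value of an exponent vector -/
noncomputable def ex {r : ℕ} (b : Fin r → K) : (Fin r →₀ ℕ) →+ K where
  toFun e := ∑ i, (e i : K) * b i
  map_zero' := by simp
  map_add' e f := by
    simp [add_mul, Finset.sum_add_distrib]

theorem ex_inj {r : ℕ} {b : Fin r → K} (hb : LinearIndependent ℤ b) :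
    Function.Injective (ex b) := by
  intro e f h
  rw [Fintype.linearIndependent_iff] at hb
  have h1 := hb (fun i => (e i : ℤ) - (f i : ℤ)) (by
    have h2 : (∑ i, (e i : K) * b i) = ∑ i, (f i : K) * b i := h
    rw [← sub_eq_zero, ← Finset.sum_sub_distrib] at h2
    rw [← h2]
    refine Finset.sum_congr rfl fun i _ => ?_
    rw [zsmul_eq_mul]
    push_cast
    ring)
  ext i
  have := h1 i
  omega

/-- every exponent of the span is a difference of exponent vectors, and uniformly so -/
theorem exists_shift {r : ℕ} (b : Fin r → K) (T : Finset K)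
    (hT : ∀ β ∈ T, β ∈ Submodule.span ℤ (Set.range b)) :
    ∃ w : Fin r →₀ ℕ, ∀ β ∈ T, ∃ e : Fin r →₀ ℕ, ex b e = ex b w + β := by
  classical
  have key : ∃ w : Fin r →₀ ℕ, ∀ w', w ≤ w' → ∀ β ∈ T, ∃ e : Fin r →₀ ℕ,
      ex b e = ex b w' + β := by
    induction T using Finset.induction with
    | empty => exact ⟨0, fun _ _ β hβ => absurd hβ (Finset.notMem_empty β)⟩
    | insert β T hβT ih =>
      obtain ⟨w, hw⟩ := ih (fun β' h => hT β' (Finset.mem_insert_of_mem h))
      obtain ⟨c, hc⟩ := (Submodule.mem_span_range_iff_exists_fun ℤ).1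
        (hT β (Finset.mem_insert_self β T))
      let v : Fin r →₀ ℕ := Finsupp.equivFunOnFinite.symm (fun i => (c i).natAbs)
      refine ⟨w + v, fun w' hw' β' hβ' => ?_⟩
      rcases Finset.mem_insert.1 hβ' with rfl | h
      · refine ⟨Finsupp.equivFunOnFinite.symm (fun i => ((w' i : ℤ) + c i).toNat), ?_⟩
        rw [← hc]
        change (∑ i : Fin r, ((Finsupp.equivFunOnFinite.symm
          (fun i => ((w' i : ℤ) + c i).toNat) : Fin r →₀ ℕ) i : K) * b i) =
          (∑ i : Fin r, (w' i : K) * b i) + ∑ i : Fin r, c i • b i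
        rw [← Finset.sum_add_distrib]
        refine Finset.sum_congr rfl fun i _ => ?_
        have h1 : (w i + (c i).natAbs : ℕ) ≤ w' i := hw' i
        have h2 : (0 : ℤ) ≤ (w' i : ℤ) + c i := by
          have : (-(c i).natAbs : ℤ) ≤ c i := by omega
          omega
        have h3 : (((((w' i : ℤ) + c i).toNat : ℕ) : ℤ) : K) = ((w' i : ℤ) + c i : ℤ) := by
          rw [Int.toNat_of_nonneg h2]
        rw [zsmul_eq_mul]
        have h4 : ((((w' i : ℤ) + c i).toNat : ℕ) : K) = (w' i : K) + (c i : K) := by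
          have := h3
          push_cast at this
          exact this
        simp only [Finsupp.equivFunOnFinite_symm_apply_apply]
        rw [h4]
        ring
      · exact hw w' (le_trans (fun i => by simp) hw') β' h
  obtain ⟨w, hw⟩ := key
  exact ⟨w, hw w le_rfl⟩

/-- **The model**: all sums with exponents in a given finite set lie, up to one monomial, in the
image of a ring of polynomials. -/
theorem exists_model (T : Finset K) : ∃ (r : ℕ)
    (ψ : MvPolynomial (Fin r) K →+* AddMonoidAlgebra K K) (X : MvPolynomial (Fin r) K) (γ : K),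
    Function.Injective ψ ∧ ψ X = single γ 1 ∧
    ∀ F : AddMonoidAlgebra K K, F.coeff.support ⊆ T → ∃ P, ψ P = single γ 1 * F := by
  classical
  obtain ⟨r, b, hb, hT⟩ := exists_basis T
  obtain ⟨w, hw⟩ := exists_shift b T hT
  have hw' : ∀ β : K, ∃ e : Fin r →₀ ℕ, β ∈ T → ex b e = ex b w + β := by
    intro β
    by_cases h : β ∈ T
    · obtain ⟨e, he⟩ := hw β h
      exact ⟨e, fun _ => he⟩
    · exact ⟨0, fun h' => absurd h' h⟩
  choose e he using hw'
  refine ⟨r, mapDomainRingHom K (ex b), single w 1, ex b w, ?_, ?_, ?_⟩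
  · exact mapDomain_injective (ex_inj hb)
  · exact mapDomain_single
  · intro F hF
    refine ⟨∑ β ∈ F.coeff.support, single (e β) (F.coeff β), ?_⟩
    rw [map_sum]
    have h1 : F = ∑ β ∈ F.coeff.support, single β (F.coeff β) := (sum_coeff_single F).symm
    conv_rhs => rw [h1]
    rw [Finset.mul_sum]
    refine Finset.sum_congr rfl fun β hβ => ?_
    rw [single_mul_single, one_mul, ← he β (hF hβ)]
    exact mapDomain_single

/-- `n`-th powers: if `g ^ n` divides `f ^ n` then `g` divides `f`. -/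
theorem dvd_of_pow {f g h : AddMonoidAlgebra K K} {n : ℕ} (hn : n ≠ 0)
    (H : h * g ^ n = f ^ n) : g ∣ f := by
  classical
  obtain ⟨r, ψ, X, γ, hψ, hX, hP⟩ := exists_model
    (f.coeff.support ∪ g.coeff.support ∪ h.coeff.support)
  obtain ⟨Pf, hf⟩ := hP f (by intro x hx; simp only [Finset.mem_union]; tauto)
  obtain ⟨Pg, hg⟩ := hP g (by intro x hx; simp only [Finset.mem_union]; tauto)
  obtain ⟨Ph, hh⟩ := hP h (by intro x hx; simp only [Finset.mem_union]; tauto)
  have h1 : Ph * Pg ^ n = X * Pf ^ n := by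
    apply hψ
    rw [map_mul, map_pow, map_mul, map_pow, hf, hg, hh, hX, mul_pow, mul_pow, ← H]
    ring
  have h2 : Pg ^ n ∣ (X * Pf) ^ n := by
    obtain ⟨m, rfl⟩ := Nat.exists_eq_succ_of_ne_zero hn
    refine ⟨X ^ m * Ph, ?_⟩
    rw [mul_pow]
    calc X ^ (m + 1) * Pf ^ (m + 1) = X ^ m * (X * Pf ^ (m + 1)) := by ring
      _ = _ := by rw [← h1]; ring
  rw [UniqueFactorizationMonoid.pow_dvd_pow_iff_dvd hn] at h2
  obtain ⟨Q, hQ⟩ := h2
  have h3 := congrArg ψ hQ
  rw [map_mul, map_mul, hf, hg, hX] at h3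
  have hu : IsUnit (single γ 1 : AddMonoidAlgebra K K) := mono_unit γ one_ne_zero
  have h4 : g ∣ single γ 1 * (single γ 1 * f) := ⟨single γ 1 * ψ Q, by rw [h3]; ring⟩
  rw [hu.dvd_mul_left, hu.dvd_mul_left] at h4
  exact h4

/-- If `f v^k = g u^k` and `f`, `g` have at most `k` terms then `u` and `v` differ by a unit. -/
theorem quot_unit {f g u v : AddMonoidAlgebra K K} {k : ℕ} (hf : f ≠ 0) (hg : g ≠ 0)
    (hu : u ≠ 0) (hkf : nt f ≤ k) (hkg : nt g ≤ k)
    (H : f * v ^ k = g * u ^ k) : ∃ β c : K, c ≠ 0 ∧ u = single β c * v := by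
  classical
  obtain ⟨r, ψ, X, γ, hψ, hX, hP⟩ := exists_model
    (f.coeff.support ∪ g.coeff.support ∪ u.coeff.support ∪ v.coeff.support)
  obtain ⟨Pf, hf'⟩ := hP f (by intro x hx; simp only [Finset.mem_union]; tauto)
  obtain ⟨Pg, hg'⟩ := hP g (by intro x hx; simp only [Finset.mem_union]; tauto)
  obtain ⟨Pu, hu'⟩ := hP u (by intro x hx; simp only [Finset.mem_union]; tauto)
  obtain ⟨Pv, hv'⟩ := hP v (by intro x hx; simp only [Finset.mem_union]; tauto)
  have hm : IsUnit (single γ 1 : AddMonoidAlgebra K K) := mono_unit γ one_ne_zero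
  have h1 : Pf * Pv ^ k = Pg * Pu ^ k := by
    apply hψ
    rw [map_mul, map_pow, map_mul, map_pow, hf', hg', hu', hv', mul_pow, mul_pow]
    calc single γ 1 * f * (single γ 1 ^ k * v ^ k) = single γ 1 * single γ 1 ^ k * (f * v ^ k) := by
          ring
      _ = _ := by rw [H]; ring
  have hPu : Pu ≠ 0 := by
    rintro rfl
    rw [map_zero] at hu'
    exact mul_ne_zero hm.ne_zero hu hu'.symm
  obtain ⟨U, V, C, hUV, hU, hV⟩ := UniqueFactorizationMonoid.exists_reduced_factors Pu hPu Pv
  have hC : C ≠ 0 := by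
    rintro rfl
    rw [zero_mul] at hU
    exact hPu hU.symm
  have hU0 : U ≠ 0 := by
    rintro rfl
    rw [mul_zero] at hU
    exact hPu hU.symm
  have h2 : Pf * V ^ k = Pg * U ^ k := by
    have h3 : C ^ k * (Pf * V ^ k) = C ^ k * (Pg * U ^ k) := by
      rw [← hU, ← hV, mul_pow, mul_pow] at h1
      linear_combination h1
    exact mul_left_cancel₀ (pow_ne_zero k hC) h3
  have h4 : U ^ k ∣ Pf := by
    have h5 : U ^ k ∣ Pf * V ^ k := ⟨Pg, by rw [h2]; ring⟩
    exact (hUV.pow (m := k) (n := k)).dvd_of_dvd_mul_right h5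
  have h6 : V ^ k ∣ Pg := by
    have h5 : V ^ k ∣ Pg * U ^ k := ⟨Pf, by rw [← h2]; ring⟩
    exact (hUV.symm.pow (m := k) (n := k)).dvd_of_dvd_mul_right h5
  have h7 : IsUnit (ψ U) := by
    refine unit_of_pow_dvd k hf hkf ?_
    have := map_dvd ψ h4
    rw [map_pow, hf', hm.dvd_mul_left] at this
    exact this
  have h8 : IsUnit (ψ V) := by
    refine unit_of_pow_dvd k hg hkg ?_
    have := map_dvd ψ h6
    rw [map_pow, hg', hm.dvd_mul_left] at this
    exact this
  obtain ⟨W, hW⟩ := h8.exists_right_inv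
  have hWu : IsUnit W := IsUnit.of_mul_eq_one (ψ V) (by rw [mul_comm]; exact hW)
  obtain ⟨β, c, hc, hUW⟩ := mono_of_unit (h7.mul hWu)
  refine ⟨β, c, hc, ?_⟩
  rw [← hUW]
  have h9 : single γ 1 * u = ψ C * ψ U := by rw [← hu', ← hU, map_mul]
  have h10 : single γ 1 * v = ψ C * ψ V := by rw [← hv', ← hV, map_mul]
  apply mul_left_cancel₀ hm.ne_zero
  calc single γ 1 * u = ψ C * ψ U * (ψ V * W) := by rw [h9, hW, mul_one]
    _ = ψ U * W * (ψ C * ψ V) := by ring
    _ = ψ U * W * (single γ 1 * v) := by rw [h10]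
    _ = _ := by ring

end Pool.Agent.D0H23.EP
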