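import Mathlib
import Pool.Agent.H340R2.LW2
import Pool.Agent.D0H23.EP.Mdl

/-!
# Which rational powers of `e ^ l` lie in the field generated by the exponentials of algebraic
numbers?
-/

set_option autoImplicit false
set_option linter.unusedSectionVars false
set_option linter.style.haveILetI false

namespace Pool.Agent.D0H23.EP

open AddMonoidAlgebra

/-- the algebraic numbers -/
noncomputable abbrev QA : IntermediateField ℚ ℂ := algebraicClosure ℚ ℂ

/-- the value of a formal exponential sum -/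
noncomputable def Ph : AddMonoidAlgebra QA QA →+* ℂ :=
  (Pool.Agent.H340R2.LW.ee QA : AddMonoidAlgebra QA QA →ₐ[QA] ℂ).toRingHom

theorem Ph_apply (x : AddMonoidAlgebra QA QA) :
    Ph x = x.coeff.sum (fun a b => (b : ℂ) * Complex.exp (a : ℂ)) :=
  Pool.Agent.H340R2.LW.ee_apply QA x

theorem Ph_single (β c : QA) : Ph (single β c) = (c : ℂ) * Complex.exp (β : ℂ) := by
  rw [Ph_apply, coeff_single, Finsupp.sum_single_index]
  simp

theorem QA_alg (a : QA) : IsAlgebraic ℚ (a : ℂ) := mem_algebraicClosure_iff.1 a.2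

theorem Ph_inj : Function.Injective Ph := by
  rw [injective_iff_map_eq_zero]
  intro F hF
  rw [Ph_apply, Finsupp.sum] at hF
  have h := Pool.Agent.H340R2.LW.lindemann_weierstrass F.coeff.support
    (fun a : QA => (a : ℂ)) (fun a : QA => ((F.coeff a : QA) : ℂ))
    (fun a _ => QA_alg a) (fun a _ => QA_alg _)
    (fun a _ b _ hab => Subtype.ext hab) hF
  apply coeff_eq_zero.1
  ext a
  by_cases ha : a ∈ F.coeff.support
  · simpa using h a ha
  · simpa using Finsupp.notMem_support_iff.1 ha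

/-- `z` is one exponential term -/
def MonoE (z : ℂ) : Prop := ∃ c β : QA, z = (c : ℂ) * Complex.exp (β : ℂ)

/-- `z` is the value of a formal sum -/
def InE (z : ℂ) : Prop := ∃ F : AddMonoidAlgebra QA QA, Ph F = z

/-- `z` is a quotient of values of formal sums -/
def InQ (z : ℂ) : Prop := ∃ F G : AddMonoidAlgebra QA QA, G ≠ 0 ∧ Ph G * z = Ph F

theorem exists_QA {z : ℂ} (h : IsAlgebraic ℚ z) : ∃ a : QA, (a : ℂ) = z :=
  ⟨⟨z, mem_algebraicClosure_iff.2 h⟩, rfl⟩

theorem mono_root {z : ℂ} {n : ℕ} (hn : n ≠ 0) (h : MonoE (z ^ n)) : MonoE z := by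
  obtain ⟨c, β, h⟩ := h
  have hn' : (n : ℂ) ≠ 0 := Nat.cast_ne_zero.2 hn
  have h1 : (z * Complex.exp (-((β : ℂ) / n))) ^ n = (c : ℂ) := by
    rw [mul_pow, h, ← Complex.exp_nat_mul, mul_assoc, ← Complex.exp_add]
    rw [show (β : ℂ) + (n : ℂ) * -((β : ℂ) / n) = 0 by field_simp; ring, Complex.exp_zero, mul_one]
  have h2 : IsAlgebraic ℚ (z * Complex.exp (-((β : ℂ) / n))) := by
    apply IsAlgebraic.of_pow (Nat.pos_of_ne_zero hn)
    rw [h1]
    exact QA_alg c
  obtain ⟨d, hd⟩ := exists_QA h2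
  refine ⟨d, β / n, ?_⟩
  rw [hd, mul_assoc, ← Complex.exp_add]
  push_cast
  rw [neg_add_cancel, Complex.exp_zero, mul_one]

theorem mono_pow {z : ℂ} (h : MonoE z) (n : ℕ) : MonoE (z ^ n) := by
  obtain ⟨c, β, rfl⟩ := h
  refine ⟨c ^ n, n * β, ?_⟩
  rw [mul_pow, ← Complex.exp_nat_mul]
  push_cast
  rfl

theorem mono_inv {z : ℂ} (h : MonoE z) : MonoE z⁻¹ := by
  obtain ⟨c, β, rfl⟩ := h
  refine ⟨c⁻¹, -β, ?_⟩
  rw [mul_inv, ← Complex.exp_neg]
  push_cast
  rfl

theorem mono_zpow {z : ℂ} (h : MonoE z) (n : ℤ) : MonoE (z ^ n) := by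
  obtain ⟨m, rfl | rfl⟩ := n.eq_nat_or_neg
  · rw [zpow_natCast]; exact mono_pow h m
  · rw [zpow_neg, zpow_natCast]; exact mono_inv (mono_pow h m)

/-- one term for one nonzero exponent, one term for all exponents -/
theorem mono_all {l : ℂ} {s : ℚ} (hs : s ≠ 0) (h : MonoE (Complex.exp (s * l))) (t : ℚ) :
    MonoE (Complex.exp (t * l)) := by
  have h1 : MonoE (Complex.exp (t * l) ^ (t / s).den) := by
    have h2 : Complex.exp (t * l) ^ (t / s).den = Complex.exp (s * l) ^ (t / s).num := by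
      rw [← Complex.exp_nat_mul, ← Complex.exp_int_mul]
      congr 1
      have h3 : (((t / s).num : ℚ)) = (t / s) * (t / s).den := (Rat.mul_den_eq_num (t / s)).symm
      have h4 : ((t / s).den : ℚ) * t = ((t / s).num : ℚ) * s := by
        rw [h3]; field_simp
      have h5 : ((t / s).den : ℂ) * (t : ℂ) = ((t / s).num : ℂ) * (s : ℂ) := by
        exact_mod_cast congrArg (fun x : ℚ => (x : ℂ)) h4
      rw [← mul_assoc, h5, mul_assoc]
    rw [h2]
    exact mono_zpow h _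
  exact mono_root (t / s).den_nz h1

theorem mono_of_single {F : AddMonoidAlgebra QA QA} (h : IsUnit F) : MonoE (Ph F) := by
  obtain ⟨β, c, _, rfl⟩ := mono_of_unit h
  exact ⟨c, β, Ph_single β c⟩

theorem Ph_ne {F : AddMonoidAlgebra QA QA} (h : F ≠ 0) : Ph F ≠ 0 := by
  rw [Ne, map_eq_zero_iff _ Ph_inj]; exact h

/-- the group of exponents -/
def grp (l : ℂ) : AddSubgroup ℚ where
  carrier := {s | InQ (Complex.exp (s * l))}
  zero_mem' := ⟨1, 1, one_ne_zero, by simp⟩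
  add_mem' := by
    rintro s t ⟨F, G, hG, h⟩ ⟨F', G', hG', h'⟩
    refine ⟨F * F', G * G', mul_ne_zero hG hG', ?_⟩
    rw [map_mul, map_mul, ← h, ← h']
    push_cast
    rw [add_mul, Complex.exp_add]
    ring
  neg_mem' := by
    rintro s ⟨F, G, hG, h⟩
    have hF : F ≠ 0 := by
      rintro rfl
      rw [map_zero] at h
      exact mul_ne_zero (Ph_ne hG) (Complex.exp_ne_zero _) h
    refine ⟨G, F, hF, ?_⟩
    rw [← h]
    push_cast
    rw [neg_mul, Complex.exp_neg, mul_assoc, mul_inv_cancel₀ (Complex.exp_ne_zero _), mul_one]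

theorem mem_grp {l : ℂ} {s : ℚ} : s ∈ grp l ↔ InQ (Complex.exp (s * l)) := Iff.rfl

/-- **Bounded divisibility.** -/
theorem div_bound {l : ℂ} (hl : ¬ MonoE (Complex.exp l)) {s : ℚ} (hs : s ≠ 0)
    {F G : AddMonoidAlgebra QA QA} (hG : G ≠ 0) (h : Ph G * Complex.exp (s * l) = Ph F)
    {N : ℕ} (hF : nt F ≤ N) (hGN : nt G ≤ N) {k : ℕ} (hk : k ≠ 0) (hmem : s / k ∈ grp l) :
    k < N := by
  by_contra hle
  push Not at hle
  obtain ⟨u, v, hv, h'⟩ := hmem
  have hF0 : F ≠ 0 := by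
    rintro rfl
    rw [map_zero] at h
    exact mul_ne_zero (Ph_ne hG) (Complex.exp_ne_zero _) h
  have hu0 : u ≠ 0 := by
    rintro rfl
    rw [map_zero] at h'
    exact mul_ne_zero (Ph_ne hv) (Complex.exp_ne_zero _) h'
  have hk' : (k : ℂ) ≠ 0 := Nat.cast_ne_zero.2 hk
  have h1 : F * v ^ k = G * u ^ k := by
    apply Ph_inj
    rw [map_mul, map_mul, map_pow, map_pow, ← h, ← h', mul_pow, ← Complex.exp_nat_mul]
    rw [show (k : ℂ) * (((s / k : ℚ) : ℂ) * l) = s * l by push_cast; field_simp]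
    ring
  obtain ⟨β, c, hc, h2⟩ := quot_unit hF0 hG hu0 (hF.trans hle) (hGN.trans hle) h1
  have h3 : Complex.exp (((s / k : ℚ) : ℂ) * l) = (c : ℂ) * Complex.exp (β : ℂ) := by
    have h4 := h'
    rw [h2, map_mul, Ph_single, mul_comm] at h4
    exact mul_right_cancel₀ (Ph_ne hv) h4
  have h5 := mono_all (l := l) (s := s / k) (div_ne_zero hs (Nat.cast_ne_zero.2 hk)) ⟨c, β, h3⟩ 1
  rw [Rat.cast_one, one_mul] at h5
  exact hl h5

/-- a subgroup of `ℚ` with an element of bounded divisibility is cyclic -/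
theorem cyc (H : AddSubgroup ℚ) {s : ℚ} (hs : s ∈ H) (hs0 : s ≠ 0) (N : ℕ)
    (hN : ∀ k : ℕ, k ≠ 0 → s / k ∈ H → k < N) :
    ∃ s₀ : ℚ, s₀ ∈ H ∧ s₀ ≠ 0 ∧ ∀ t ∈ H, ∃ n : ℤ, t = n * s₀ := by
  classical
  set k₀ := Nat.findGreatest (fun k => s / (k : ℚ) ∈ H) N with hk₀
  have h1N : 1 < N := hN 1 one_ne_zero (by simpa using hs)
  have h1 : s / (k₀ : ℚ) ∈ H :=
    Nat.findGreatest_spec (P := fun k : ℕ => s / (k : ℚ) ∈ H) h1N.le (by simpa using hs)
  have h2 : ∀ k : ℕ, k ≠ 0 → s / k ∈ H → k ≤ k₀ := fun k hk hkH =>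
    Nat.le_findGreatest (P := fun k : ℕ => s / (k : ℚ) ∈ H) (hN k hk hkH).le hkH
  have h3 : 1 ≤ k₀ := h2 1 one_ne_zero (by simpa using hs)
  have h3' : (k₀ : ℚ) ≠ 0 := by positivity
  refine ⟨s / k₀, h1, div_ne_zero hs0 h3', fun t ht => ?_⟩
  obtain ⟨q, hq⟩ : ∃ q : ℚ, q = t / (s / k₀) := ⟨_, rfl⟩
  have hqd : (q.den : ℚ) ≠ 0 := Nat.cast_ne_zero.2 q.den_nz
  have htq : t = q * (s / k₀) := by rw [hq]; field_simp
  have hb : q.den = 1 := by
    have hbez : (q.num * Int.gcdA q.num q.den + (q.den : ℤ) * Int.gcdB q.num q.den : ℤ) = 1 := by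
      have := Int.gcd_eq_gcd_ab q.num q.den
      rw [← this]
      have h5 : Int.gcd q.num q.den = 1 := by
        have := q.reduced
        simpa [Int.gcd, Nat.Coprime] using this
      exact_mod_cast h5
    set x := Int.gcdA q.num q.den
    set y := Int.gcdB q.num q.den
    have h6 : (s / k₀) / q.den ∈ H := by
      have h7 : (s / k₀) / q.den = x • t + y • (s / (k₀ : ℚ)) := by
        rw [zsmul_eq_mul, zsmul_eq_mul, htq]
        have h8 : (q.num : ℚ) = q * q.den := (Rat.mul_den_eq_num q).symm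
        have h9 : (q.num : ℚ) * x + q.den * y = 1 := by exact_mod_cast hbez
        rw [h8] at h9
        field_simp
        linear_combination (-1 : ℚ) * h9
      rw [h7]
      exact H.add_mem (H.zsmul_mem ht _) (H.zsmul_mem h1 _)
    have h10 : k₀ * q.den ≤ k₀ := by
      apply h2 _ (Nat.mul_ne_zero (by omega) q.den_nz)
      rw [div_div] at h6
      push_cast
      exact h6
    have h11 : k₀ * q.den ≤ k₀ * 1 := by rw [mul_one]; exact h10
    have h12 := Nat.le_of_mul_le_mul_left h11 h3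
    have h13 := q.den_nz
    omega
  refine ⟨q.num, ?_⟩
  rw [htq]
  congr 1
  have := Rat.mul_den_eq_num q
  rw [hb] at this
  simpa using this

end Pool.Agent.D0H23.EP
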