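import Mathlib
import Pool.Agent.D0H23.EP.Exp

/-!
# Rational powers against all exponentials of algebraic numbers: main theorems
-/

set_option autoImplicit false
set_option linter.unusedSectionVars false
set_option linter.style.haveILetI false

namespace Pool.Agent.D0H23.EP

open AddMonoidAlgebra

/-- `z` is a sum of `N` terms `c * exp β` with `c`, `β` algebraic. -/
def IsExpSum (N : ℕ) (z : ℂ) : Prop :=
  ∃ c β : Fin N → ℂ, (∀ i, IsAlgebraic ℚ (c i)) ∧ (∀ i, IsAlgebraic ℚ (β i)) ∧
    z = ∑ i, c i * Complex.exp (β i)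

/-- `z` is a quotient of two such sums. -/
def IsExpQuot (N : ℕ) (z : ℂ) : Prop :=
  ∃ u v : ℂ, IsExpSum N u ∧ IsExpSum N v ∧ v ≠ 0 ∧ z = u / v

theorem nt_sum_le {ι : Type*} (s : Finset ι) (β c : ι → QA) :
    nt (∑ i ∈ s, single (β i) (c i)) ≤ s.card := by
  classical
  induction s using Finset.induction with
  | empty => simp [nt]
  | insert i s hi ih =>
    rw [Finset.sum_insert hi, Finset.card_insert_of_notMem hi]
    have h1 : nt (single (β i) (c i) + ∑ j ∈ s, single (β j) (c j)) ≤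
        nt (single (β i) (c i)) + nt (∑ j ∈ s, single (β j) (c j)) := by
      rw [nt, nt, nt, coeff_add]
      exact (Finset.card_le_card Finsupp.support_add).trans (Finset.card_union_le _ _)
    have h2 : nt (single (β i) (c i)) ≤ 1 := by
      rw [nt, coeff_single]
      exact (Finset.card_le_card Finsupp.support_single_subset).trans (by simp)
    omega

theorem isExpSum_succ {N : ℕ} {z : ℂ} (h : IsExpSum N z) : IsExpSum (N + 1) z := by
  obtain ⟨c, β, hc, hβ, rfl⟩ := h
  refine ⟨Fin.cons 0 c, Fin.cons 0 β, ?_, ?_, ?_⟩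
  · intro i
    refine Fin.cases ?_ (fun j => ?_) i
    · simpa using isAlgebraic_zero
    · simpa using hc j
  · intro i
    refine Fin.cases ?_ (fun j => ?_) i
    · simpa using isAlgebraic_zero
    · simpa using hβ j
  · rw [Fin.sum_univ_succ]
    simp

theorem isExpSum_mono {N M : ℕ} (hNM : N ≤ M) {z : ℂ} (h : IsExpSum N z) : IsExpSum M z := by
  induction M, hNM using Nat.le_induction with
  | base => exact h
  | succ M _ ih => exact isExpSum_succ ih

theorem isExpSum_iff {N : ℕ} {z : ℂ} :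
    IsExpSum N z ↔ ∃ F : AddMonoidAlgebra QA QA, nt F ≤ N ∧ Ph F = z := by
  constructor
  · rintro ⟨c, β, hc, hβ, rfl⟩
    choose c' hc' using fun i => exists_QA (hc i)
    choose β' hβ' using fun i => exists_QA (hβ i)
    refine ⟨∑ i, single (β' i) (c' i), ?_, ?_⟩
    · exact (nt_sum_le _ _ _).trans (by simp)
    · rw [map_sum]
      refine Finset.sum_congr rfl fun i _ => ?_
      rw [Ph_single, hc', hβ']
  · rintro ⟨F, hF, rfl⟩
    refine isExpSum_mono hF ?_
    refine ⟨fun i => ((F.coeff (F.coeff.support.equivFin.symm i) : QA) : ℂ),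
      fun i => ((F.coeff.support.equivFin.symm i : QA) : ℂ), fun i => QA_alg _,
      fun i => QA_alg _, ?_⟩
    rw [Ph_apply, Finsupp.sum, ← Finset.sum_coe_sort]
    exact (Equiv.sum_comp F.coeff.support.equivFin.symm
      (fun x : F.coeff.support => ((F.coeff x : QA) : ℂ) * Complex.exp ((x : QA) : ℂ))).symm

theorem exists_isExpSum {z : ℂ} : (∃ N, IsExpSum N z) ↔ InE z := by
  constructor
  · rintro ⟨N, h⟩
    obtain ⟨F, _, hF⟩ := isExpSum_iff.1 h
    exact ⟨F, hF⟩
  · rintro ⟨F, hF⟩
    exact ⟨nt F, isExpSum_iff.2 ⟨F, le_rfl, hF⟩⟩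

theorem isExpQuot_iff {N : ℕ} {z : ℂ} : IsExpQuot N z ↔
    ∃ F G : AddMonoidAlgebra QA QA, nt F ≤ N ∧ nt G ≤ N ∧ G ≠ 0 ∧ Ph G * z = Ph F := by
  constructor
  · rintro ⟨u, v, hu, hv, hv0, rfl⟩
    obtain ⟨F, hF, rfl⟩ := isExpSum_iff.1 hu
    obtain ⟨G, hG, rfl⟩ := isExpSum_iff.1 hv
    refine ⟨F, G, hF, hG, ?_, by field_simp⟩
    rintro rfl
    exact hv0 (map_zero _)
  · rintro ⟨F, G, hF, hG, hG0, h⟩
    refine ⟨Ph F, Ph G, isExpSum_iff.2 ⟨F, hF, rfl⟩, isExpSum_iff.2 ⟨G, hG, rfl⟩, Ph_ne hG0, ?_⟩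
    rw [← h]
    field_simp [Ph_ne hG0]

theorem exists_isExpQuot {z : ℂ} : (∃ N, IsExpQuot N z) ↔ InQ z := by
  constructor
  · rintro ⟨N, h⟩
    obtain ⟨F, G, _, _, hG, h⟩ := isExpQuot_iff.1 h
    exact ⟨F, G, hG, h⟩
  · rintro ⟨F, G, hG, h⟩
    exact ⟨max (nt F) (nt G), isExpQuot_iff.2 ⟨F, G, le_max_left _ _, le_max_right _ _, hG, h⟩⟩

theorem monoE_iff {z : ℂ} : MonoE z → IsExpSum 1 z := by
  rintro ⟨c, β, rfl⟩
  exact ⟨fun _ => c, fun _ => β, fun _ => QA_alg c, fun _ => QA_alg β, by simp⟩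

theorem inQ_of_inE {z : ℂ} (h : InE z) : InQ z := by
  obtain ⟨F, hF⟩ := h
  exact ⟨F, 1, one_ne_zero, by rw [map_one, one_mul, hF]⟩

/-- **The group theorem.** -/
theorem main1 (l : ℂ) (hl : ¬ MonoE (Complex.exp l)) :
    ∃ s₀ : ℚ, (∀ s : ℚ, InQ (Complex.exp (s * l)) ↔ ∃ n : ℤ, s = n * s₀) ∧
      ((∀ s : ℚ, InE (Complex.exp (s * l)) ↔ s = 0) ∨
       (∀ s : ℚ, InE (Complex.exp (s * l)) ↔ ∃ n : ℕ, s = n * s₀)) := by
  classical
  have hzero : InE (Complex.exp (((0 : ℚ) : ℂ) * l)) := ⟨1, by simp⟩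
  by_cases hne : ∃ s ∈ grp l, s ≠ 0
  · obtain ⟨s, hs, hs0⟩ := hne
    obtain ⟨F, G, hG, h⟩ := id hs
    obtain ⟨s₀, hs₀, hs₀0, hgen⟩ := cyc (grp l) hs hs0 (max (nt F) (nt G))
      (fun k hk hmem => div_bound hl hs0 hG h (le_max_left _ _) (le_max_right _ _) hk hmem)
    have hgen' : ∀ s : ℚ, InQ (Complex.exp (s * l)) ↔ ∃ n : ℤ, s = n * s₀ := by
      intro t
      constructor
      · intro ht; exact hgen t ht
      · rintro ⟨n, rfl⟩
        have : n • s₀ ∈ grp l := (grp l).zsmul_mem hs₀ n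
        rw [zsmul_eq_mul] at this
        exact this
    by_cases hE : ∃ t : ℚ, t ≠ 0 ∧ InE (Complex.exp (t * l))
    · -- a sign
      have key : ∃ s₁ : ℚ, (s₁ = s₀ ∨ s₁ = -s₀) ∧ InE (Complex.exp (s₁ * l)) := by
        obtain ⟨t, ht0, ht⟩ := hE
        obtain ⟨n, hn⟩ := hgen t (inQ_of_inE ht)
        have hn0 : n ≠ 0 := by
          rintro rfl
          rw [Int.cast_zero, zero_mul] at hn
          exact ht0 hn
        -- `s₁` with `t = |n| s₁`
        obtain ⟨s₁, hs₁, hts₁⟩ : ∃ s₁ : ℚ, (s₁ = s₀ ∨ s₁ = -s₀) ∧ t = (n.natAbs : ℚ) * s₁ := by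
          rcases le_or_gt 0 n with h0 | h0
          · refine ⟨s₀, Or.inl rfl, ?_⟩
            rw [hn, Nat.cast_natAbs, abs_of_nonneg h0]
          · refine ⟨-s₀, Or.inr rfl, ?_⟩
            rw [hn]
            rw [Nat.cast_natAbs, abs_of_neg h0]
            push_cast
            ring
        refine ⟨s₁, hs₁, ?_⟩
        have hs₁m : s₁ ∈ grp l := by
          rcases hs₁ with rfl | rfl
          · exact hs₀
          · exact (grp l).neg_mem hs₀
        obtain ⟨f, g, hg, hfg⟩ := hs₁m
        obtain ⟨h', hh'⟩ := ht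
        have hm : n.natAbs ≠ 0 := Int.natAbs_ne_zero.2 hn0
        have h1 : h' * g ^ n.natAbs = f ^ n.natAbs := by
          apply Ph_inj
          rw [map_mul, map_pow, map_pow, hh', ← hfg, mul_pow, ← Complex.exp_nat_mul, hts₁]
          push_cast
          ring_nf
        obtain ⟨q, hq⟩ := dvd_of_pow hm h1
        refine ⟨q, ?_⟩
        have h2 := hfg
        rw [hq, map_mul] at h2
        exact (mul_left_cancel₀ (Ph_ne hg) h2).symm
      obtain ⟨s₁, hs₁, q, hq⟩ := key
      have hs₁0 : s₁ ≠ 0 := by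
        rcases hs₁ with rfl | rfl
        · exact hs₀0
        · exact neg_ne_zero.2 hs₀0
      have hgen1 : ∀ s : ℚ, InQ (Complex.exp (s * l)) ↔ ∃ n : ℤ, s = n * s₁ := by
        intro t
        rw [hgen']
        rcases hs₁ with rfl | rfl
        · rfl
        · constructor
          · rintro ⟨n, rfl⟩; exact ⟨-n, by push_cast; ring⟩
          · rintro ⟨n, rfl⟩; exact ⟨-n, by push_cast; ring⟩
      refine ⟨s₁, hgen1, Or.inr fun t => ?_⟩
      constructor
      · intro ht
        obtain ⟨n, hn⟩ := (hgen1 t).1 (inQ_of_inE ht)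
        rcases le_or_gt 0 n with h0 | h0
        · refine ⟨n.toNat, ?_⟩
          rw [hn]
          congr 1
          have : (n.toNat : ℤ) = n := Int.toNat_of_nonneg h0
          exact_mod_cast congrArg (fun x : ℤ => (x : ℚ)) this.symm
        · exfalso
          obtain ⟨q', hq'⟩ := ht
          obtain ⟨m, hm⟩ : ∃ m : ℕ, n = -((m + 1 : ℕ) : ℤ) := by
            refine ⟨n.natAbs - 1, ?_⟩
            omega
          have h1 : q ^ (m + 1) * q' = 1 := by
            apply Ph_inj
            rw [map_mul, map_pow, hq, hq', map_one, ← Complex.exp_nat_mul, ← Complex.exp_add,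
              hn, hm]
            push_cast
            rw [show ((m : ℂ) + 1) * (s₁ * l) + (-((m : ℂ) + 1)) * s₁ * l = 0 by ring,
              Complex.exp_zero]
          have h2 : IsUnit q := by
            apply IsUnit.of_mul_eq_one (q ^ m * q')
            rw [← mul_assoc, ← pow_succ']
            exact h1
          have h3 := mono_of_single h2
          rw [hq] at h3
          have h4 := mono_all (l := l) hs₁0 h3 1
          rw [Rat.cast_one, one_mul] at h4
          exact hl h4
      · rintro ⟨n, rfl⟩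
        refine ⟨q ^ n, ?_⟩
        rw [map_pow, hq, ← Complex.exp_nat_mul]
        push_cast
        ring_nf
    · refine ⟨s₀, hgen', Or.inl fun t => ⟨fun ht => ?_, ?_⟩⟩
      · by_contra h0
        exact hE ⟨t, h0, ht⟩
      · rintro rfl; exact hzero
  · push Not at hne
    refine ⟨0, fun t => ⟨fun ht => ⟨0, ?_⟩, ?_⟩, Or.inl fun t => ⟨fun ht => ?_, ?_⟩⟩
    · rw [hne t ht]; simp
    · rintro ⟨n, rfl⟩
      rw [mul_zero]
      exact inQ_of_inE hzero
    · exact hne t (inQ_of_inE ht)
    · rintro rfl; exact hzero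

/-- the formal sum `a - c T^β` -/
noncomputable def bin (a c β : QA) : AddMonoidAlgebra QA QA := single 0 a - single β c

theorem Ph_bin (a c β : QA) : Ph (bin a c β) = a - c * Complex.exp β := by
  rw [bin, map_sub, Ph_single, Ph_single]
  simp

theorem bin_coeff_zero {a c β : QA} (hβ : β ≠ 0) : (bin a c β).coeff 0 = a := by
  classical
  rw [bin, coeff_sub, Finsupp.sub_apply, coeff_single, coeff_single, Finsupp.single_eq_same,
    Finsupp.single_apply, if_neg hβ, sub_zero]

theorem bin_coeff {a c β : QA} (hβ : β ≠ 0) : (bin a c β).coeff β = -c := by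
  classical
  rw [bin, coeff_sub, Finsupp.sub_apply, coeff_single, coeff_single, Finsupp.single_eq_same,
    Finsupp.single_apply, if_neg hβ.symm, zero_sub]

theorem bin_coeff_of {a c β γ : QA} (h0 : γ ≠ 0) (hγ : γ ≠ β) : (bin a c β).coeff γ = 0 := by
  classical
  rw [bin, coeff_sub, Finsupp.sub_apply, coeff_single, coeff_single,
    Finsupp.single_apply, Finsupp.single_apply, if_neg h0.symm, if_neg hγ.symm, sub_zero]

theorem nt_bin (a c β : QA) : nt (bin a c β) ≤ 2 := by
  have h := nt_sum_le (Finset.univ : Finset (Fin 2)) ![0, β] ![a, -c]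
  have h1 : (∑ i : Fin 2, single ((![0, β] : Fin 2 → QA) i) ((![a, -c] : Fin 2 → QA) i) :
      AddMonoidAlgebra QA QA) = bin a c β := by
    rw [Fin.sum_univ_two, bin, sub_eq_add_neg]
    simp only [Matrix.cons_val_zero, Matrix.cons_val_one]
    congr 1
    ext γ
    simp
  rw [h1] at h
  simpa using h

theorem bin_not_unit {a c β : QA} (ha : a ≠ 0) (hc : c ≠ 0) (hβ : β ≠ 0) :
    ¬ IsUnit (bin a c β) := by
  classical
  intro h
  obtain ⟨γ, d, hd, h⟩ := mono_of_unit h
  have h1 := bin_coeff_zero (a := a) (c := c) hβ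
  have h2 := bin_coeff (a := a) (c := c) hβ
  rw [h, coeff_single, Finsupp.single_apply] at h1 h2
  have h3 : γ = 0 := by
    by_contra h5; rw [if_neg h5] at h1; exact ha h1.symm
  have h4 : γ = β := by
    by_contra h5; rw [if_neg h5] at h2; exact hc (by rw [← neg_neg c, ← h2, neg_zero])
  exact hβ (by rw [← h4, h3])

theorem bin_ne_zero {a c β : QA} (hc : c ≠ 0) (hβ : β ≠ 0) :
    bin a c β ≠ 0 := by
  intro h
  have h2 := bin_coeff (a := a) (c := c) hβ
  rw [h] at h2
  exact hc (by rw [← neg_neg c, ← h2]; simp)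

theorem not_mono_of_bin {l : ℂ} {s : ℚ} {a c β : QA} (ha : a ≠ 0) (hc : c ≠ 0) (hβ : β ≠ 0)
    (h : Complex.exp (s * l) = a - c * Complex.exp β) : ¬ MonoE (Complex.exp l) := by
  intro hm
  have h1 := mono_all (l := l) (s := 1) one_ne_zero (by simpa using hm) s
  obtain ⟨d, γ, hd⟩ := h1
  have h2 : bin a c β = single γ d := by
    apply Ph_inj
    rw [Ph_bin, Ph_single, ← h, hd]
  have hd0 : d ≠ 0 := by
    rintro rfl
    rw [single_zero] at h2
    exact bin_ne_zero hc hβ h2
  exact bin_not_unit ha hc hβ (by rw [h2]; exact mono_unit γ hd0)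

/-- **Binomials.** -/
theorem main2 {l : ℂ} {s : ℚ} (hs : s ≠ 0) {a c β : QA} (ha : a ≠ 0) (hc : c ≠ 0) (hβ : β ≠ 0)
    (h : Complex.exp (s * l) = a - c * Complex.exp β) :
    (∀ t : ℚ, InQ (Complex.exp (t * l)) ↔ ∃ n : ℤ, t = n * s) ∧
    (∀ t : ℚ, InE (Complex.exp (t * l)) ↔ ∃ n : ℕ, t = n * s) := by
  have hl := not_mono_of_bin ha hc hβ h
  have hE : InE (Complex.exp (s * l)) := ⟨bin a c β, by rw [Ph_bin, h]⟩
  obtain ⟨s₀, h1, h2 | h2⟩ := main1 l hl
  · exact absurd ((h2 s).1 hE) hs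
  · obtain ⟨n, hn⟩ := (h2 s).1 hE
    obtain ⟨q, hq⟩ := (h2 s₀).2 ⟨1, by simp⟩
    have h3 : q ^ n = bin a c β := by
      apply Ph_inj
      rw [map_pow, hq, Ph_bin, ← h, ← Complex.exp_nat_mul, hn]
      push_cast
      ring_nf
    have h4 : n < 2 := by
      by_contra hle
      push Not at hle
      have h5 : IsUnit q := unit_of_pow_dvd n (bin_ne_zero (a := a) hc hβ)
        ((nt_bin a c β).trans hle) (by rw [h3])
      exact bin_not_unit ha hc hβ (by rw [← h3]; exact h5.pow n)
    have h6 : n ≠ 0 := by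
      rintro rfl
      rw [Nat.cast_zero, zero_mul] at hn
      exact hs hn
    have h7 : n = 1 := by omega
    rw [h7, Nat.cast_one, one_mul] at hn
    rw [hn]
    exact ⟨h1, h2⟩

/-- **Two binomials.** -/
theorem main3 {l : ℂ} {s s' : ℚ} (hs : s ≠ 0) (hs' : s' ≠ 0) {a c β a' c' β' : QA}
    (hc : c ≠ 0) (hβ : β ≠ 0) (hc' : c' ≠ 0) (hβ' : β' ≠ 0)
    (h : Complex.exp (s * l) = a - c * Complex.exp β)
    (h' : Complex.exp (s' * l) = a' - c' * Complex.exp β') :
    (s = s' ∧ a = a' ∧ c = c' ∧ β = β') ∨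
      (a = 0 ∧ a' = 0 ∧ (s : ℂ) * β' = (s' : ℂ) * β) := by
  classical
  by_cases ha : a = 0
  · by_cases ha' : a' = 0
    · refine Or.inr ⟨ha, ha', ?_⟩
      subst ha ha'
      -- compare the exponents of one common power
      have e1 : (Complex.exp (s * l)) ^ ((s' / s).num) = (Complex.exp (s' * l)) ^ (s' / s).den := by
        rw [← Complex.exp_nat_mul, ← Complex.exp_int_mul]
        congr 1
        have h3 : (((s' / s).num : ℚ)) = (s' / s) * (s' / s).den :=
          (Rat.mul_den_eq_num (s' / s)).symm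
        have h4 : ((s' / s).den : ℚ) * s' = ((s' / s).num : ℚ) * s := by
          rw [h3]; field_simp
        have h5 : ((s' / s).den : ℂ) * (s' : ℂ) = ((s' / s).num : ℂ) * (s : ℂ) := by
          exact_mod_cast congrArg (fun x : ℚ => (x : ℂ)) h4
        rw [← mul_assoc, ← mul_assoc, h5]
      have z1 : Complex.exp (s * l) = ((-c : QA) : ℂ) * Complex.exp β := by
        rw [h]; push_cast; ring
      have z2 : Complex.exp (s' * l) = ((-c' : QA) : ℂ) * Complex.exp β' := by
        rw [h']; push_cast; ring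
      rw [z1, z2, mul_zpow, mul_pow, ← Complex.exp_nat_mul, ← Complex.exp_int_mul] at e1
      have e2 : (single (((s' / s).num : QA) * β) ((-c) ^ (s' / s).num) : AddMonoidAlgebra QA QA) =
          single (((s' / s).den : QA) * β') ((-c') ^ (s' / s).den) := by
        apply Ph_inj
        rw [Ph_single, Ph_single]
        push_cast
        push_cast at e1
        exact e1
      have hne : (-c) ^ (s' / s).num ≠ 0 := zpow_ne_zero _ (neg_ne_zero.2 hc)
      rcases single_inj.1 e2 with h6 | h6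
      · have h7 := congrArg (fun x : QA => (x : ℂ)) h6.1
        push_cast at h7
        have h3 : ((s' / s : ℚ)) * (s' / s).den = (((s' / s).num : ℚ)) :=
          (Rat.mul_den_eq_num (s' / s))
        have h3' : ((s' : ℂ) / s) * ((s' / s).den : ℂ) = (((s' / s).num : ℂ)) := by
          have := congrArg (fun x : ℚ => (x : ℂ)) h3
          push_cast at this
          exact_mod_cast this
        have hden : ((s' / s).den : ℂ) ≠ 0 := Nat.cast_ne_zero.2 (s' / s).den_nz
        have hsC : (s : ℂ) ≠ 0 := Rat.cast_ne_zero.2 hs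
        rw [← h3'] at h7
        have h8 : ((s' / s).den : ℂ) * ((s' : ℂ) / s * β) = ((s' / s).den : ℂ) * β' := by
          rw [← h7]; ring
        have h9 := mul_left_cancel₀ hden h8
        rw [← h9]
        field_simp
      · exact absurd h6.1 hne
    · exfalso
      have h1 := not_mono_of_bin ha' hc' hβ' h'
      apply h1
      have h2 := mono_all (l := l) hs ⟨-c, β, by rw [h, ha]; push_cast; ring⟩ 1
      simpa using h2
  · by_cases ha' : a' = 0
    · exfalso
      have h1 := not_mono_of_bin ha hc hβ h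
      apply h1
      have h2 := mono_all (l := l) hs' ⟨-c', β', by rw [h', ha']; push_cast; ring⟩ 1
      simpa using h2
    · left
      have m1 := (main2 hs ha hc hβ h).2
      have m2 := (main2 hs' ha' hc' hβ' h').2
      obtain ⟨n, hn⟩ := (m1 s').1 ((m2 s').2 ⟨1, by simp⟩)
      obtain ⟨m, hm⟩ := (m2 s).1 ((m1 s).2 ⟨1, by simp⟩)
      have hss : s = s' := by
        have h1 : (m : ℚ) * n = 1 := by
          have : s * ((m : ℚ) * n) = s * 1 := by
            rw [hn] at hm
            linear_combination -hm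
          exact mul_left_cancel₀ hs this
        have h2 : m * n = 1 := by exact_mod_cast h1
        have h3 : n = 1 := Nat.eq_one_of_mul_eq_one_left h2
        rw [hn, h3]; simp
      have hb : bin a c β = bin a' c' β' := by
        apply Ph_inj
        rw [Ph_bin, Ph_bin, ← h, ← h', hss]
      have h1 : a = a' := by
        rw [← bin_coeff_zero (a := a) (c := c) hβ, hb, bin_coeff_zero hβ']
      have h2 : β = β' := by
        by_contra hne
        have h3 := bin_coeff (a := a) (c := c) hβ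
        rw [hb, bin_coeff_of hβ hne] at h3
        exact hc (by rw [← neg_neg c, ← h3, neg_zero])
      have h3 : c = c' := by
        have h4 := bin_coeff (a := a) (c := c) hβ
        rw [hb, h2, bin_coeff hβ'] at h4
        exact (neg_injective h4).symm
      exact ⟨hss, h1, h3, h2⟩

end Pool.Agent.D0H23.EP
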