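import Mathlib
import Pool.Agent.D0H23.EP.Main

/-!
# Rational powers against all exponentials of algebraic numbers: final form
-/

set_option autoImplicit false
set_option linter.unusedSectionVars false
set_option linter.style.haveILetI false

namespace Pool.Agent.D0H23.EP

open AddMonoidAlgebra

/-- All four numbers `x + y`, `x - y`, `x y`, `x / y` are transcendental. -/
def AllFour (x y : ℝ) : Prop :=
  Transcendental ℚ (x + y) ∧ Transcendental ℚ (x - y) ∧ Transcendental ℚ (x * y) ∧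
    Transcendental ℚ (x / y)

/-- Part (1) in terms of sums and quotients. -/
theorem part1 (l : ℂ) : (∀ s : ℚ, IsExpSum 1 (Complex.exp (s * l))) ∨
    ∃ s₀ : ℚ, (∀ s : ℚ, (∃ N, IsExpQuot N (Complex.exp (s * l))) ↔ ∃ n : ℤ, s = n * s₀) ∧
      (∀ (n : ℤ) (N : ℕ), n * s₀ ≠ 0 → IsExpQuot N (Complex.exp (((n * s₀ : ℚ) : ℂ) * l)) →
        |n| < N) ∧
      ((∀ s : ℚ, (∃ N, IsExpSum N (Complex.exp (s * l))) ↔ s = 0) ∨
       (∀ s : ℚ, (∃ N, IsExpSum N (Complex.exp (s * l))) ↔ ∃ n : ℕ, s = n * s₀)) := by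
  by_cases hl : MonoE (Complex.exp l)
  · left
    intro s
    exact monoE_iff (mono_all (l := l) (s := 1) one_ne_zero (by simpa using hl) s)
  · right
    obtain ⟨s₀, h1, h2⟩ := main1 l hl
    refine ⟨s₀, ?_, ?_, ?_⟩
    · intro s; rw [exists_isExpQuot]; exact h1 s
    · intro n N hn0 hq
      obtain ⟨F, G, hF, hG, hG0, h⟩ := isExpQuot_iff.1 hq
      have hn : n ≠ 0 := by
        rintro rfl
        exact hn0 (by simp)
      have hmem : (n * s₀ : ℚ) / (n.natAbs : ℕ) ∈ grp l := by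
        rw [mem_grp, h1]
        refine ⟨n.sign, ?_⟩
        have h3 : ((n.natAbs : ℕ) : ℚ) ≠ 0 := by
          exact_mod_cast Int.natAbs_ne_zero.2 hn
        have h4 : (n : ℚ) = (n.sign : ℚ) * ((n.natAbs : ℕ) : ℚ) := by
          rw [Nat.cast_natAbs]
          have := Int.sign_mul_abs n
          exact_mod_cast congrArg (fun x : ℤ => (x : ℚ)) this.symm
        rw [div_eq_iff h3, h4]
        ring
      have := div_bound hl hn0 hG0 h hF hG (Int.natAbs_ne_zero.2 hn) hmem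
      have h5 : |n| = (n.natAbs : ℤ) := Int.abs_eq_natAbs n
      rw [h5]
      exact_mod_cast this
    · rcases h2 with h2 | h2
      · left; intro s; rw [exists_isExpSum]; exact h2 s
      · right; intro s; rw [exists_isExpSum]; exact h2 s

theorem QA_ne {a : QA} {z : ℂ} (h : (a : ℂ) = z) (hz : z ≠ 0) : a ≠ 0 := by
  rintro rfl
  exact hz (by rw [← h]; simp)

/-- Part (2). -/
theorem part2 (l : ℂ) (s s' : ℚ) (c c' β β' : ℂ) (hs : s ≠ 0) (hs' : s' ≠ 0)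
    (hc0 : c ≠ 0) (hc0' : c' ≠ 0) (hβ0 : β ≠ 0) (hβ0' : β' ≠ 0)
    (hc : IsAlgebraic ℚ c) (hc' : IsAlgebraic ℚ c') (hβ : IsAlgebraic ℚ β)
    (hβ' : IsAlgebraic ℚ β') (h : IsAlgebraic ℚ (Complex.exp (s * l) + c * Complex.exp β))
    (h' : IsAlgebraic ℚ (Complex.exp (s' * l) + c' * Complex.exp β')) :
    (s = s' ∧ c = c' ∧ β = β') ∨
      (Complex.exp (s * l) + c * Complex.exp β = 0 ∧
        Complex.exp (s' * l) + c' * Complex.exp β' = 0 ∧ (s : ℂ) * β' = (s' : ℂ) * β) := by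
  obtain ⟨a, ha⟩ := exists_QA h
  obtain ⟨a', ha'⟩ := exists_QA h'
  obtain ⟨d, hd⟩ := exists_QA hc
  obtain ⟨d', hd'⟩ := exists_QA hc'
  obtain ⟨γ, hγ⟩ := exists_QA hβ
  obtain ⟨γ', hγ'⟩ := exists_QA hβ'
  have e : Complex.exp (s * l) = a - d * Complex.exp γ := by rw [ha, hd, hγ]; ring
  have e' : Complex.exp (s' * l) = a' - d' * Complex.exp γ' := by rw [ha', hd', hγ']; ring
  rcases main3 hs hs' (QA_ne hd hc0) (QA_ne hγ hβ0) (QA_ne hd' hc0') (QA_ne hγ' hβ0') e e' with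
    ⟨h1, _, h3, h4⟩ | ⟨h1, h2, h3⟩
  · left
    refine ⟨h1, ?_, ?_⟩
    · rw [← hd, ← hd', h3]
    · rw [← hγ, ← hγ', h4]
  · right
    refine ⟨?_, ?_, ?_⟩
    · rw [← ha, h1]; simp
    · rw [← ha', h2]; simp
    · rw [← hγ, ← hγ']; exact h3

/-- Part (2'). -/
theorem part2' (l : ℂ) (s : ℚ) (c β : ℂ) (hs : s ≠ 0)
    (hc0 : c ≠ 0) (hβ0 : β ≠ 0) (hc : IsAlgebraic ℚ c) (hβ : IsAlgebraic ℚ β)
    (h : IsAlgebraic ℚ (Complex.exp (s * l) + c * Complex.exp β))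
    (h0 : Complex.exp (s * l) + c * Complex.exp β ≠ 0) :
    (∀ t : ℚ, (∃ N, IsExpQuot N (Complex.exp (t * l))) ↔ ∃ n : ℤ, t = n * s) ∧
    (∀ t : ℚ, (∃ N, IsExpSum N (Complex.exp (t * l))) ↔ ∃ n : ℕ, t = n * s) := by
  obtain ⟨a, ha⟩ := exists_QA h
  obtain ⟨d, hd⟩ := exists_QA hc
  obtain ⟨γ, hγ⟩ := exists_QA hβ
  have e : Complex.exp (s * l) = a - d * Complex.exp γ := by rw [ha, hd, hγ]; ring
  obtain ⟨h1, h2⟩ := main2 hs (QA_ne ha h0) (QA_ne hd hc0) (QA_ne hγ hβ0) e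
  exact ⟨fun t => by rw [exists_isExpQuot]; exact h1 t,
    fun t => by rw [exists_isExpSum]; exact h2 t⟩

theorem ofReal_alg {x : ℝ} : IsAlgebraic ℚ (x : ℂ) ↔ IsAlgebraic ℚ x := by
  have := isAlgebraic_algebraMap_iff (R := ℚ) (S := ℝ) (A := ℂ) (a := x)
    (algebraMap ℝ ℂ).injective
  exact this

theorem rpow_exp {x : ℝ} (hx : 0 < x) (s : ℚ) :
    (((x ^ (s : ℝ) : ℝ)) : ℂ) = Complex.exp (s * ((Real.log x : ℝ) : ℂ)) := by
  rw [Real.rpow_def_of_pos hx, mul_comm, Complex.ofReal_exp]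
  push_cast
  rfl

/-- A failure of `AllFour` is an algebraic relation of the type of part (2). -/
theorem fail {x : ℝ} (hx : 0 < x) {s : ℚ} {b : ℝ} (hb : IsAlgebraic ℚ b)
    (h : ¬ AllFour (x ^ (s : ℝ)) (Real.exp b)) :
    ∃ c β : ℝ, c ≠ 0 ∧ IsAlgebraic ℚ c ∧ IsAlgebraic ℚ β ∧
      IsAlgebraic ℚ (x ^ (s : ℝ) + c * Real.exp β) ∧
      (((c = 1 ∨ c = -1) ∧ β = b) ∨ (x ^ (s : ℝ) + c * Real.exp β = 0 ∧ (β = b ∨ β = -b))) := by
  have hpos : 0 < x ^ (s : ℝ) := Real.rpow_pos_of_pos hx _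
  have hE := Real.exp_pos b
  rw [AllFour, not_and_or, not_and_or, not_and_or] at h
  simp only [Transcendental, not_not] at h
  rcases h with h | h | h | h
  · exact ⟨1, b, one_ne_zero, isAlgebraic_one, hb, by simpa using h, Or.inl ⟨Or.inl rfl, rfl⟩⟩
  · refine ⟨-1, b, by norm_num, isAlgebraic_one.neg, hb, ?_, Or.inl ⟨Or.inr rfl, rfl⟩⟩
    rw [neg_one_mul, ← sub_eq_add_neg]; exact h
  · have h0 : x ^ (s : ℝ) + -(x ^ (s : ℝ) * Real.exp b) * Real.exp (-b) = 0 := by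
      rw [neg_mul, mul_assoc, ← Real.exp_add, add_neg_cancel, Real.exp_zero]; ring
    refine ⟨-(x ^ (s : ℝ) * Real.exp b), -b, neg_ne_zero.2 (by positivity), h.neg, hb.neg, ?_,
      Or.inr ⟨h0, Or.inr rfl⟩⟩
    rw [h0]; exact isAlgebraic_zero
  · have h0 : x ^ (s : ℝ) + -(x ^ (s : ℝ) / Real.exp b) * Real.exp b = 0 := by
      field_simp; ring
    refine ⟨-(x ^ (s : ℝ) / Real.exp b), b, neg_ne_zero.2 (by positivity), h.neg, hb, ?_,
      Or.inr ⟨h0, Or.inl rfl⟩⟩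
    rw [h0]; exact isAlgebraic_zero

/-- real form of part (2) -/
theorem real2 {x : ℝ} (hx : 0 < x) {s s' : ℚ} {c c' β β' : ℝ} (hs : s ≠ 0) (hs' : s' ≠ 0)
    (hc0 : c ≠ 0) (hc0' : c' ≠ 0) (hβ0 : β ≠ 0) (hβ0' : β' ≠ 0)
    (hc : IsAlgebraic ℚ c) (hc' : IsAlgebraic ℚ c') (hβ : IsAlgebraic ℚ β)
    (hβ' : IsAlgebraic ℚ β') (h : IsAlgebraic ℚ (x ^ (s : ℝ) + c * Real.exp β))
    (h' : IsAlgebraic ℚ (x ^ (s' : ℝ) + c' * Real.exp β')) :
    (s = s' ∧ c = c' ∧ β = β') ∨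
      (x ^ (s : ℝ) + c * Real.exp β = 0 ∧ x ^ (s' : ℝ) + c' * Real.exp β' = 0 ∧
        (s : ℝ) * β' = (s' : ℝ) * β) := by
  have k : ∀ (s : ℚ) (c β : ℝ), ((x ^ (s : ℝ) + c * Real.exp β : ℝ) : ℂ) =
      Complex.exp (s * ((Real.log x : ℝ) : ℂ)) + (c : ℂ) * Complex.exp (β : ℂ) := by
    intro s c β
    rw [← rpow_exp hx]
    push_cast
    rfl
  have := part2 ((Real.log x : ℝ) : ℂ) s s' c c' β β' hs hs' (by exact_mod_cast hc0)
    (by exact_mod_cast hc0') (by exact_mod_cast hβ0) (by exact_mod_cast hβ0')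
    (ofReal_alg.2 hc) (ofReal_alg.2 hc') (ofReal_alg.2 hβ) (ofReal_alg.2 hβ')
    (by rw [← k]; exact ofReal_alg.2 h) (by rw [← k]; exact ofReal_alg.2 h')
  rw [← k, ← k] at this
  rcases this with ⟨h1, h2, h3⟩ | ⟨h1, h2, h3⟩
  · left
    exact ⟨h1, by exact_mod_cast h2, by exact_mod_cast h3⟩
  · right
    refine ⟨by exact_mod_cast h1, by exact_mod_cast h2, ?_⟩
    exact_mod_cast h3

/-- Part (3). -/
theorem part3 (x : ℝ) (hx : 0 < x) : ∃ ρ : ℝ, ∀ (s : ℚ) (b : ℝ), s ≠ 0 → b ≠ 0 →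
    IsAlgebraic ℚ b → |b| ≠ ρ * |(s : ℝ)| → AllFour (x ^ (s : ℝ)) (Real.exp b) := by
  by_cases hex : ∃ (s : ℚ) (b : ℝ), s ≠ 0 ∧ b ≠ 0 ∧ IsAlgebraic ℚ b ∧
      ¬ AllFour (x ^ (s : ℝ)) (Real.exp b)
  · obtain ⟨s₁, b₁, hs₁, hb₁, hb₁a, hf₁⟩ := hex
    obtain ⟨c₁, β₁, hc₁, hc₁a, hβ₁a, hr₁, hty₁⟩ := fail hx hb₁a hf₁
    have habs₁ : |β₁| = |b₁| := by
      rcases hty₁ with ⟨_, rfl⟩ | ⟨_, rfl | rfl⟩
      · rfl
      · rfl
      · exact abs_neg _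
    have hβ₁ : β₁ ≠ 0 := by
      rw [← abs_pos, habs₁]; exact abs_pos.2 hb₁
    have hsR : |(s₁ : ℝ)| ≠ 0 := abs_ne_zero.2 (Rat.cast_ne_zero.2 hs₁)
    refine ⟨|b₁| / |(s₁ : ℝ)|, fun s b hs hb hba hne => ?_⟩
    by_contra hf
    obtain ⟨c, β, hc, hca, hβa, hr, hty⟩ := fail hx hba hf
    have habs : |β| = |b| := by
      rcases hty with ⟨_, rfl⟩ | ⟨_, rfl | rfl⟩
      · rfl
      · rfl
      · exact abs_neg _
    have hβ : β ≠ 0 := by
      rw [← abs_pos, habs]; exact abs_pos.2 hb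
    apply hne
    rcases real2 hx hs hs₁ hc hc₁ hβ hβ₁ hca hc₁a hβa hβ₁a hr hr₁ with ⟨h1, _, h3⟩ | ⟨_, _, h3⟩
    · rw [← habs, h3, habs₁, h1]
      field_simp
    · have h4 : |(s : ℝ)| * |b₁| = |(s₁ : ℝ)| * |b| := by
        rw [← habs₁, ← habs, ← abs_mul, ← abs_mul, h3]
      field_simp
      linear_combination -h4
  · refine ⟨0, fun s b hs hb hba _ => ?_⟩
    by_contra hf
    exact hex ⟨s, b, hs, hb, hba, hf⟩

/-- Part (4). -/
theorem part4 (x : ℝ) (hx : 0 < x) (b₀ : ℝ) (hb₀ : b₀ ≠ 0) (hb₀a : IsAlgebraic ℚ b₀) :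
    AllFour x (Real.exp b₀) ∨
    ((∀ (s : ℚ) (b : ℝ), s ≠ 0 → b ≠ 0 → IsAlgebraic ℚ b → ¬ (s = 1 ∧ b = b₀) →
        AllFour (x ^ (s : ℝ)) (Real.exp b)) ∧
      (∀ s : ℚ, (∃ N, IsExpQuot N ((x ^ (s : ℝ) : ℝ) : ℂ)) ↔ ∃ n : ℤ, s = n) ∧
      (∀ s : ℚ, (∃ N, IsExpSum N ((x ^ (s : ℝ) : ℝ) : ℂ)) ↔ ∃ n : ℕ, s = n)) ∨
    ((∃ c : ℝ, IsAlgebraic ℚ c ∧ (x = c * Real.exp b₀ ∨ x = c / Real.exp b₀)) ∧
      ∀ (s : ℚ) (b : ℝ), s ≠ 0 → b ≠ 0 → IsAlgebraic ℚ b → |b| ≠ |(s : ℝ)| * |b₀| →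
        AllFour (x ^ (s : ℝ)) (Real.exp b)) := by
  by_cases hA : AllFour x (Real.exp b₀)
  · exact Or.inl hA
  right
  have hA' : ¬ AllFour (x ^ (((1 : ℚ)) : ℝ)) (Real.exp b₀) := by
    rw [Rat.cast_one, Real.rpow_one]; exact hA
  obtain ⟨c₁, β₁, hc₁, hc₁a, hβ₁a, hr₁, hty₁⟩ := fail hx hb₀a hA'
  have habs₁ : |β₁| = |b₀| := by
    rcases hty₁ with ⟨_, rfl⟩ | ⟨_, rfl | rfl⟩
    · rfl
    · rfl
    · exact abs_neg _
  have hβ₁ : β₁ ≠ 0 := by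
    rw [← abs_pos, habs₁]; exact abs_pos.2 hb₀
  by_cases h0 : x ^ (((1 : ℚ)) : ℝ) + c₁ * Real.exp β₁ = 0
  · right
    rw [Rat.cast_one, Real.rpow_one] at h0
    refine ⟨?_, ?_⟩
    · refine ⟨-c₁, hc₁a.neg, ?_⟩
      have h1 : x = -c₁ * Real.exp β₁ := by linear_combination h0
      rcases hty₁ with ⟨_, rfl⟩ | ⟨_, rfl | rfl⟩
      · exact Or.inl h1
      · exact Or.inl h1
      · right
        rw [Real.exp_neg] at h1
        rw [h1]; rfl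
    · intro s b hs hb hba hne
      by_contra hf
      obtain ⟨c, β, hc, hca, hβa, hr, hty⟩ := fail hx hba hf
      have habs : |β| = |b| := by
        rcases hty with ⟨_, rfl⟩ | ⟨_, rfl | rfl⟩
        · rfl
        · rfl
        · exact abs_neg _
      have hβ : β ≠ 0 := by
        rw [← abs_pos, habs]; exact abs_pos.2 hb
      apply hne
      rcases real2 hx hs one_ne_zero hc hc₁ hβ hβ₁ hca hc₁a hβa hβ₁a hr hr₁ with
        ⟨h1, _, h3⟩ | ⟨_, _, h3⟩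
      · rw [← habs, h3, habs₁, h1]; simp
      · rw [Rat.cast_one, one_mul] at h3
        rw [← habs, ← h3, abs_mul, habs₁]
  · left
    have h0' := h0
    rw [Rat.cast_one, Real.rpow_one] at h0'
    have hty : (c₁ = 1 ∨ c₁ = -1) ∧ β₁ = b₀ := by
      rcases hty₁ with h | ⟨h, _⟩
      · exact h
      · exact absurd h h0
    refine ⟨?_, ?_⟩
    · intro s b hs hb hba hne
      by_contra hf
      obtain ⟨c, β, hc, hca, hβa, hr, hty'⟩ := fail hx hba hf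
      have habs : |β| = |b| := by
        rcases hty' with ⟨_, rfl⟩ | ⟨_, rfl | rfl⟩
        · rfl
        · rfl
        · exact abs_neg _
      have hβ : β ≠ 0 := by
        rw [← abs_pos, habs]; exact abs_pos.2 hb
      rcases real2 hx hs one_ne_zero hc hc₁ hβ hβ₁ hca hc₁a hβa hβ₁a hr hr₁ with
        ⟨h1, h2, h3⟩ | ⟨_, h2, _⟩
      · apply hne
        refine ⟨h1, ?_⟩
        rcases hty' with ⟨_, h4⟩ | ⟨h4, _⟩
        · rw [← h4, h3, hty.2]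
        · exfalso
          apply h0
          rw [← h1, ← h2, ← h3]
          exact h4
      · exact h0 h2
    · have h1 := part2' ((Real.log x : ℝ) : ℂ) 1 c₁ β₁ one_ne_zero (by exact_mod_cast hc₁)
        (by exact_mod_cast hβ₁) (ofReal_alg.2 hc₁a) (ofReal_alg.2 hβ₁a) (by
          rw [← rpow_exp hx]
          have := ofReal_alg.2 hr₁
          push_cast at this ⊢
          exact this) (by
          rw [← rpow_exp hx]
          intro h5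
          apply h0
          have h6 : (((x ^ (((1 : ℚ)) : ℝ) + c₁ * Real.exp β₁ : ℝ)) : ℂ) = 0 := by
            rw [← h5]; push_cast; rfl
          exact_mod_cast h6)
      refine ⟨fun s => ?_, fun s => ?_⟩
      · rw [rpow_exp hx, h1.1 s]; simp
      · rw [rpow_exp hx, h1.2 s]; simp

end Pool.Agent.D0H23.EP
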